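import Pool.Agent.T2h19.AP.Mat

/-!
# Statements, concrete part

The definitions are in `Pool/Agent/T2h19/AP/Mat.lean`. `mA u`, `mB u` are the multiplications by `e_1`
and `e_2` in the commutative associative algebra on `ℂ^3` with unit `e_0` and
`e_1 e_1 = (a1, u0, u1)`, `e_1 e_2 = (b1, u2, u3)`, `e_2 e_2 = (c1, u4, u5)` with
`a1 = u2 u1 + u3^2 - u0 u3 - u1 u5`, `b1 = u1 u4 - u2 u3`, `c1 = u2^2 + u3 u4 - u4 u0 - u5 u2`.
-/

set_option autoImplicit false

open MvPolynomial

namespace Pool.Agent.T2h19.AP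

/-- EVA (100 lines). The basic cell. `ev φ0 u = (mA u)° ∧ (mB u)°` (evaluation is a ring homomorphism;
`ext i j; fin_cases i <;> fin_cases j` for the matrices `mA`, `mB`), the linear forms have the values `1`
and `u j`, `mA u` and `mB u` commute, and the multiples are in `C0` (`t • (x ∧ y) = (t x) ∧ y`; for
`t = 0` also). -/
def S_EVA : Prop :=
  (∀ u : Fin 6 → ℂ, ev φ0 u = wedge (tl (mA u)) (tl (mB u))) ∧
  (∀ u : Fin 6 → ℂ, L0 0 (ev φ0 u) = 1) ∧
  (∀ (u : Fin 6 → ℂ) (j : Fin 6), L0 j.succ (ev φ0 u) = u j) ∧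
  (∀ u : Fin 6 → ℂ, mA u * mB u = mB u * mA u) ∧
  ∀ (t : ℂ) (u : Fin 6 → ℂ), t • ev φ0 u ∈ C0

/-- NRM (200 lines; hypothesis S_EVA). Normal form of the commuting matrices with the cyclic vector
`e_0`. Let `x`, `y` have trace zero and commute, `c = L_0 (x ∧ y) = x10 y20 - y10 x20 ≠ 0`. Put
`A = α x + β y + γ`, `B = α' x + β' y + γ'` with `α = y20/c`, `β = -x20/c`, `α' = -y10/c`,
`β' = x10/c` and `γ`, `γ'` such that `A e_0 = e_1`, `B e_0 = e_2` (first columns `(0,1,0)`,
`(0,0,1)`). Then `A B = B A`, `A e_2 = A B e_0 = B A e_0 = B e_1`, and with `A e_1 = (a1, a2, a3)`,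
`A e_2 = B e_1 = (b1, b2, b3)`, `B e_2 = (c1, c2, c3)` the equations `A (B e_1) = B (A e_1)` and
`A (B e_2) = B (A e_2)` give
`b1 = a3 c2 - b3 b2`, `a1 = b2 a3 + b3^2 - a2 b3 - a3 c3`, `c1 = b2^2 + b3 c2 - c2 a2 - c3 b2`, i.e.
`A = mA u`, `B = mB u` with `u = (a2, a3, b2, b3, c2, c3)`. And `(A°) ∧ (B°) = c⁻¹ (x ∧ y)`
(determinant `α β' - β α' = 1/c`, and the scalar parts do not matter as `x`, `y` have trace zero), so
`u j = L_(j+1) (x ∧ y) / c` by S_EVA. -/
def S_NRM : Prop :=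
  ∀ x y : M3, x.trace = 0 → y.trace = 0 → x * y = y * x → L0 0 (wedge x y) ≠ 0 →
    wedge x y = L0 0 (wedge x y) • ev φ0 (fun j => L0 j.succ (wedge x y) / L0 0 (wedge x y))

/-- CLS (120 lines). `C0` is closed. It is the set of the `z` with `z(p,p') = -z(p',p)`,
`z(p,p') z(r,r') - z(p,r) z(p',r') + z(p,r') z(p',r) = 0` for all `p, p', r, r' : Fin 3 × Fin 3`,
`∑ i, z((i,i),p) = 0` for all `p`, and `∑ j, z((i,j),(j,k)) = 0` for all `i, k` (this is the entry of
`x y - y x`). Conversely, if `z ≠ 0` satisfies these equations choose `z(p,p') ≠ 0` and put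
`x r = z(r,p')/z(p,p')`, `y r = z(p,r)`; then `z = x ∧ y` by the Plücker relations (`z(p,p') z(r,r') =
z(p,r) z(p',r') - z(p,r') z(p',r)`), and the other equations say that `x`, `y` have trace zero (take the
equations with `p`, `p'` in place of `p`) and commute. `z = 0`: `x = y = 0`. -/
def S_CLS : Prop := ∃ S : Set (MvPolynomial I4 ℂ), C0 = {z | ∀ F ∈ S, eval z F = 0}

/-- CYC (200 lines). A plane of commuting matrices has a cyclic vector or a cyclic covector. Proof:
suppose `detV x y v = 0` for all `v` and `detF x y f = 0` for all `f`. The coefficients of the ten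
monomials of these cubic forms are zero (take suitable `v`), and the entries of `x y - y x` are zero.
All these are linear equations for the coordinates of `x ∧ y` (in addition: `x`, `y` have trace zero,
so `∑ i, (x ∧ y)((i,i),p) = 0`), and the `28` dimensional space of the alternating tensors on `sl_3` is
the direct sum `sl_3 + S^3 V + S^3 V*`, so all coordinates are zero. (Solve the linear equations by weights:
`linarith`/`linear_combination` for each of the coordinates `(x ∧ y)(p,q)`; at most three unknowns in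
each nonzero weight space, and four in the weight zero.) -/
def S_CYC : Prop :=
  ∀ x y : M3, x.trace = 0 → y.trace = 0 → x * y = y * x → wedge x y ≠ 0 →
    (∃ v, detV x y v ≠ 0) ∨ ∃ f, detF x y f ≠ 0

/-- ADW (200 lines). The automorphisms: `ad h h'` is the conjugation, it comes from a linear
automorphism in `W0` if `h' = h⁻¹`; the anti-transposition; all elements of `W0` preserve `C0`
(`tr (h x h') = tr x`, `(h x h')(h y h') = h x y h'`, `anti x * anti y = anti (y * x)`). -/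
def S_ADW : Prop :=
  (∀ h h' x y : M3, ad h h' (wedge x y) = wedge (h * x * h') (h * y * h')) ∧
  (∀ h h' : M3, h * h' = 1 → h' * h = 1 →
    ∃ w ∈ W0, (∀ z, w z = ad h h' z) ∧ ∀ z, w.symm z = ad h' h z) ∧
  (∀ x y : M3, γ0 (wedge x y) = wedge (anti x) (anti y)) ∧
  (∀ z, γ0 (γ0 z) = z) ∧
  LinearEquiv.refl ℂ (I4 → ℂ) ∈ W0 ∧ γ0 ∈ W0 ∧ (∀ w ∈ W0, w.trans γ0 ∈ W0) ∧
  ∀ w ∈ W0, ∀ z, w z ∈ C0 ↔ z ∈ C0

/-- COV (120 lines; hypotheses S_NRM, S_CYC, S_ADW). The cells cover. Let `z = x ∧ y ∈ C0`, `z ≠ 0`.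
If `detV x y v ≠ 0` choose an invertible `h` with `h e_0 = v` (`v ≠ 0`; e.g. `v` and two standard basis
vectors as columns), `h' = h⁻¹`, `w` from S_ADW: `w⁻¹ z = (h' x h) ∧ (h' y h)` has
`L_0 = det h' * detV x y v ≠ 0`, so it is `t • ev φ0 u` by S_NRM. If `detF x y f ≠ 0` apply this to
`γ0 z = anti x ∧ anti y` with `v = f` reversed (`detV (anti x) (anti y) (f ∘ Fin.rev) = ± detF x y f`),
and use `w.trans γ0 ∈ W0`. -/
def S_COV : Prop :=
  ∀ z ∈ C0, z ≠ 0 → ∃ w ∈ W0, ∃ (t : ℂ) (u : Fin 6 → ℂ), t ≠ 0 ∧ z = w (t • ev φ0 u)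

/-- QAD (120 lines; hypotheses S_EVA, S_ADW). The formulas for the functions `L_0 ∘ w`, `L_0 ∘ γ0 ∘ w`
on the basic cell. `L_0 (x ∧ y) = x10 y20 - y10 x20 = detV x y e_0`, and
`detV (h x h') (h y h') e_0 = det h * detV x y (h' e_0)`; `L_0 (γ0 (x ∧ y)) = x21 y20 - y21 x20 =
- detF x y e_2` and `detF (h x h') (h y h') e_2 = det h' * detF x y (e_2 h)`. `detV` and `detF` do not
change if scalar matrices are added to `x`, `y`. -/
def S_QAD : Prop :=
  ∀ h h' : M3, h * h' = 1 → h' * h = 1 → ∀ u : Fin 6 → ℂ,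
    L0 0 (ad h h' (ev φ0 u)) = h.det * detV (mA u) (mB u) (fun i => h' i 0) ∧
    L0 0 (γ0 (ad h h' (ev φ0 u))) = -(h'.det * detF (mA u) (mB u) (fun j => h 2 j))

/-- The cubic form `v ↦ detV` on the basic cell, as a polynomial in the parameters. -/
noncomputable def cV (v : Fin 3 → ℂ) : MvPolynomial (Fin 6) ℂ :=
  detV (mA fun i => X i) (mB fun i => X i) (fun i => C (v i))

/-- The cubic form `f ↦ detF` on the basic cell, as a polynomial in the parameters. -/
noncomputable def cF (f : Fin 3 → ℂ) : MvPolynomial (Fin 6) ℂ :=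
  detF (mA fun i => X i) (mB fun i => X i) (fun i => C (f i))

/-- CEV (40 lines). Evaluation of `cV`, `cF`. -/
def S_CEV : Prop :=
  ∀ (v : Fin 3 → ℂ) (u : Fin 6 → ℂ),
    eval u (cV v) = detV (mA u) (mB u) v ∧ eval u (cF v) = detF (mA u) (mB u) v

/-- CNZ (80 lines; hypothesis S_CEV). They are not zero. `cV`: if `v 0 ≠ 0` take `u = 0` (value
`v 0 ^ 3`); if `v 0 = 0` take `u = (0, 1, 0, 0, τ, 0)`, `τ = 1` or `τ = -1` (the algebra
`ℂ[x]/(x^3 - τ)`, value `τ (v1^3 + τ v2^3)`). `cF`: if `f 1 ≠ 0` take `u = (0,0,0,0,1,0)` (value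
`-f1^3`); if `f 2 ≠ 0` take `u = (0,1,0,0,0,0)` (value `-f2^3`); if only `f 0 ≠ 0` take
`u = (0,1,1,0,0,0)` (value `f0^3 (a1 c1 - b1^2) = f0^3`). (Check the values.) -/
def S_CNZ : Prop :=
  (∀ v : Fin 3 → ℂ, v ≠ 0 → cV v ≠ 0) ∧ ∀ f : Fin 3 → ℂ, f ≠ 0 → cF f ≠ 0

/-- CPR (200 lines; hypotheses S_EVA, S_NRM, S_ADW, S_QAD, S_CEV). Reduction by the stabilizer of `e_0`.
Let `k k' = k' k = 1`, `k e_0 = e_0` (so `k' e_0 = e_0`). For `T = ad k k'` we have
`L_0 (T (ev φ0 u)) = det k` (S_QAD), so by S_NRM `T (ev φ0 u) = det k • ev φ0 (P u)` with the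
polynomials `P_j(u) = L_(j+1) (T (ev φ0 u)) / det k`; for `k'` we get `P'` with `P' (P u) = u`,
`P (P' u) = u`. The values `detV x y v`, `detF x y f` are linear functions of `x ∧ y` (for all `x`, `y`),
so from `detV (k x k') (k y k') v = det k * detV x y (k' v)` and
`detF (k x k') (k y k') f = det k' * detF x y (f k)` we get
`cV (k' v)(u) = cV v (P u)` and `cF (f k)(u) = (det k)^2 cF f (P u)`. The substitution `u ↦ P u` is an
automorphism of the algebra of polynomials, so it preserves `IsRelPrime`. -/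
def S_CPR : Prop :=
  ∀ k k' : M3, k * k' = 1 → k' * k = 1 → (∀ i, k i 0 = if i = 0 then 1 else 0) →
    ∀ v f : Fin 3 → ℂ, IsRelPrime (cV v) (cF f) →
      IsRelPrime (cV (k'.mulVec v)) (cF (Matrix.vecMul f k))

/-- CP2 (80 lines). `cV e_1 = det (mA u) = a3 b1 - a1 b3` and `cF e_2 = -a3` (`a3 = X 1`) are
relatively prime: `X 1` is prime and does not divide `cV e_1` (at `u = (0,0,0,1,0,0)` it is `-1`). -/
def S_CP2 : Prop := IsRelPrime (cV ![0, 1, 0]) (cF ![0, 0, 1])

/-- CP3 (200 lines). `D = cV e_1 = a3 b1 - a1 b3 = a3^2 c2 - 2 a3 b2 b3 - b3^3 + a2 b3^2 + a3 b3 c3` and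
`Q = cF e_0 = a1 c1 - b1^2` are relatively prime. Proof: `D = b3^2 a2 + (a3^2 c2 - 2 a3 b2 b3 - b3^3 +
a3 b3 c3)` is of degree one in `a2 = X 0`, and its two coefficients are relatively prime (`b3 = X 3` is
prime and does not divide the second one: `a3^2 c2`), so `D` is irreducible: in a factorization one of
the factors does not contain `a2`, so it divides both coefficients (e.g. with
`MvPolynomial.finSuccEquiv ℂ 5`, `Polynomial` of degree one which is primitive is irreducible; or look at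
the degrees `degreeOf 0`). `D` does not divide `Q`: at `u = (a2,a3,b2,b3,c2,c3) = (0,1,1,0,0,0)` we have
`D = 0`, `a1 = 1`, `b1 = 0`, `c1 = 1`, `Q = 1`. -/
def S_CP3 : Prop := IsRelPrime (cV ![0, 1, 0]) (cF ![1, 0, 0])

/-- CPA (150 lines; hypotheses S_CPR, S_CP2, S_CP3, S_CEV). The general case. Let `v ≠ 0`, `f ≠ 0`,
`f v = 0`. If `v = v0 e_0` then `cV v = v0^3` is a unit (`detV x y e_0 = 1` on the cell). Otherwise
choose `k'` invertible with the columns `e_0`, `v`, `r` (so `k' e_1 = v`), `k = k'⁻¹`; then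
`cV v = cV (k' e_1)` and `f = (f k') k`, `f k' = (f0, 0, f r)`. If `f0 = 0`: any `r` with
`det k' ≠ 0`; then `f k' = c e_2`, `c ≠ 0`. If `f0 ≠ 0`: choose `r` with `f r = 0` and `det k' ≠ 0` (the
kernel of `f` has dimension two, contains `v`, and does not contain `e_0`); then `f k' = f0 e_0`.
Now use S_CPR and S_CP2, S_CP3 (`cF (c f) = c^3 cF f`). -/
def S_CPA : Prop :=
  ∀ v f : Fin 3 → ℂ, v ≠ 0 → f ≠ 0 → ∑ i, f i * v i = 0 → IsRelPrime (cV v) (cF f)

/-- WQP (120 lines; hypotheses S_QAD, S_CEV, S_CNZ, S_CPA, S_ADW). The polynomials `L_0 ∘ w ∘ φ0`,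
`w ∈ W0`, are not zero, and relatively prime to `L_0 ∘ γ0 ∘ w ∘ φ0`. For `w = ad h h'` they are
`det h * cV v`, `- det h' * cF f` with `v = h' e_0`, `f = e_2 h`, so `f v = (h h')_(20) = 0`
(`MvPolynomial.funext`, `eval_qpoly`); for `w = γ0 ∘ ad h h'` the two are exchanged. -/
def S_WQP : Prop :=
  ∀ w ∈ W0, qpoly φ0 L0 w ≠ 0 ∧ IsRelPrime (qpoly φ0 L0 w) (qpoly φ0 L0 (w.trans γ0))

/-- JAC (200 lines; hypothesis S_EVA). The involution `γ0` in the coordinates of the basic cell: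
`L_j (γ0 (ev φ0 u)) = N_j(u)` with `N = (a3, a2 - b3, 1, a1, -b3, a3 b1 - a1 b3, b3^2 - a3 c3)`
(here `a2 = u0, a3 = u1, b2 = u2, b3 = u3, c2 = u4, c3 = u5`), so
`L_j (γ0 (dev φ0 a u)) = ∂_a N_j (u)` (`pull φ0 (form (L0 j ∘ γ0)) = N_j` by `MvPolynomial.funext`), and the
determinant of the `7 × 7` matrix with the rows `N`, `∂_a N` is `-a3^4` (expand along the column
`N_2 = 1`, then the columns `N_0`, `N_4`, `N_1`; `Matrix.det_succ_..`/`simp`/`ring`, or a sequence of
column operations). In particular `qpoly φ0 L0 γ0 = X 1` is prime. -/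
def S_JAC : Prop :=
  (∀ u : Fin 6 → ℂ,
    omega L0 (fun i => γ0 (frame φ0 u i)) = (-1) * L0 0 (γ0 (ev φ0 u)) ^ 4) ∧
  qpoly φ0 L0 γ0 = X 1

/-- PLN (250 lines; hypotheses S_ADW and the two facts on the ideal). The plane with trivial normal
bundle: `L = {hh ∧ y}`, `hh = diag(-2,1,1)`, `y = bl a` of trace zero in the lower right block. It is
contained in `C0` and has dimension three. Sections of the normal bundle: for `N = e_01, e_02, e_10,
e_20` (matrix units) let `A_N` be the linear map with `A_N (x ∧ y) = [N, x] ∧ y + x ∧ [N, y]` (define it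
by coordinates, or as the coefficient of `t` in `ad (1 + t N) (1 - t N)`). For `z ∈ C0` the vector
`A_N z` is in the tangent space: `ad (1 + t N) (1 - t N) z ∈ C0` for all `t` (as `N^2 = 0`), a polynomial
in `t` with the linear term `A_N z`, so `∑ ∂_i F(z) (A_N z)_i = 0` for `F` in the ideal. For
`z = hh ∧ y`: `A_N z = ±3 N ∧ y + hh ∧ [N, y]`. These four vectors are linearly independent modulo `L`
for every `y ≠ 0`: look at the coordinates `(p, q)` with `p` an off-diagonal entry of `N` and `q` an entry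
of the block where `y ≠ 0` (the elements of `L` and the terms `hh ∧ [N, y]` have zero there, because
`hh` is diagonal ... use the antisymmetric parts `z(p,q)` with `p` of type `N`, `q` in the block; if `q`
is diagonal combine the three diagonal coordinates so that `hh` does not contribute). As `L` is contained
in `C0`, it is in the tangent space at its points (`z + t z' ∈ L`); compare dimensions: `3 + 4 = 7`. -/
def S_PLN : Prop :=
  IsSmooth (ideal C0) 6 → (∀ z, On (ideal C0) z ↔ z ∈ C0 ∧ z ≠ 0) →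
    ∃ L : Submodule ℂ (I4 → ℂ), IsLinearWithTrivialNormalBundle (ideal C0) 6 2 L

end Pool.Agent.T2h19.AP
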