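import Pool.Agent.T2h19.AP.Stm
import Pool.Agent.T2h19.AP.Stm2

set_option autoImplicit false

open MvPolynomial

namespace Pool.Agent.T2h19.AP

theorem K0_cov (h1 : S_EVA) (h2 : S_NRM) (h3 : S_CLS) (h4 : S_ADW) (h5 : S_COV) (h6 : S_WQP) :
    K0.Cov where
  closed := h3
  smul_mem := h1.2.2.2.2
  cell := by
    rintro z ⟨x, y, hx, hy, hxy, rfl⟩ hz
    exact h2 x y hx hy hxy hz
  L_zero := h1.2.1
  L_succ := h1.2.2.1
  mem_iff := h4.2.2.2.2.2.2.2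
  cover := h5
  q_ne := fun w hw => (h6 w hw).1

theorem K0_nbr (h4 : S_ADW) (h6 : S_WQP) (h7 : S_JAC) : K0.Nbr where
  one_mem := h4.2.2.2.2.1
  γ_mem := h4.2.2.2.2.2.1
  γ_mul := h4.2.2.2.2.2.2.1
  γγ := h4.2.2.2.1
  cop := fun w hw => (h6 w hw).2
  prime := by
    show Prime (qpoly φ0 L0 γ0)
    rw [h7.2]
    exact MvPolynomial.X_prime
  κ_ne := by
    show (-1 : ℂ) ≠ 0
    norm_num
  jac := by
    intro u
    have h := h7.1 u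
    have e1 : K0.L = L0 := rfl
    have e2 : K0.φ = φ0 := rfl
    have e3 : K0.γ = γ0 := rfl
    have e4 : K0.κ = -1 := rfl
    rw [e1, e2, e3, e4]
    exact h

/-- The final statement. -/
def S_FIN : Prop :=
  ∃ k n : ℕ, 2 < 2 * k ∧ 2 * k ≤ n ∧ ∃ (ι : Type) (_ : Fintype ι) (I : Ideal (MvPolynomial ι ℂ)),
    IsVariety I ∧ IsSmooth I n ∧ (∃ r : ℤ, 0 < r ∧ CanonicalIs I n r) ∧ PicardNumberOne I ∧
    ∃ L : Submodule ℂ (ι → ℂ), IsLinearWithTrivialNormalBundle I n k L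

theorem fin_ (hc : K0.Cov) (hn : K0.Nbr) (hv : S_VAR) (hd : S_DIM) (ht : S_THE) (hp : S_PIC)
    (hl : S_PLN) : S_FIN :=
  ⟨2, 6, by norm_num, by norm_num, I4, inferInstance, ideal C0, (hv I4 K0 hc).1, hd I4 K0 hc,
    ⟨3, by norm_num, ht I4 K0 hc hn⟩, hp I4 K0 hc hn, hl (hd I4 K0 hc) (hv I4 K0 hc).2⟩

end Pool.Agent.T2h19.AP
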