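import Pool.Agent.T2h19.AP.Defs

/-!
# Cones which are covered by cells
-/

set_option autoImplicit false

open MvPolynomial

namespace Pool.Agent.T2h19.AP

variable {ι : Type} [Fintype ι] [DecidableEq ι]

/-- The ideal of the polynomials which vanish on `C`. -/
def ideal (C : Set (ι → ℂ)) : Ideal (MvPolynomial ι ℂ) where
  carrier := {F | ∀ z ∈ C, eval z F = 0}
  zero_mem' := by intro z _; simp
  add_mem' := by
    intro a b ha hb z hz
    rw [map_add, ha z hz, hb z hz, add_zero]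
  smul_mem' := by
    intro c a ha z hz
    rw [smul_eq_mul, map_mul, ha z hz, mul_zero]

omit [Fintype ι] [DecidableEq ι] in
theorem mem_ideal {C : Set (ι → ℂ)} {F : MvPolynomial ι ℂ} :
    F ∈ ideal C ↔ ∀ z ∈ C, eval z F = 0 := Iff.rfl

/-- The point with parameters `u` of the cell. -/
noncomputable def ev (φ : ι → MvPolynomial (Fin 6) ℂ) (u : Fin 6 → ℂ) : ι → ℂ :=
  fun i => eval u (φ i)

/-- The partial derivative with respect to the parameter `a`. -/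
noncomputable def dev (φ : ι → MvPolynomial (Fin 6) ℂ) (a : Fin 6) (u : Fin 6 → ℂ) : ι → ℂ :=
  fun i => eval u (pderiv a (φ i))

/-- The point with parameters `u` and the six partial derivatives. -/
noncomputable def frame (φ : ι → MvPolynomial (Fin 6) ℂ) (u : Fin 6 → ℂ) : Fin 7 → ι → ℂ :=
  Fin.cons (ev φ u) (fun a => dev φ a u)

omit [Fintype ι] [DecidableEq ι] in
@[simp] theorem frame_zero (φ : ι → MvPolynomial (Fin 6) ℂ) (u : Fin 6 → ℂ) :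
    frame φ u 0 = ev φ u := rfl

omit [Fintype ι] [DecidableEq ι] in
@[simp] theorem frame_succ (φ : ι → MvPolynomial (Fin 6) ℂ) (u : Fin 6 → ℂ) (a : Fin 6) :
    frame φ u a.succ = dev φ a u := rfl

/-- The polynomial `F ∘ φ` in the parameters. -/
noncomputable def pull (φ : ι → MvPolynomial (Fin 6) ℂ) (F : MvPolynomial ι ℂ) :
    MvPolynomial (Fin 6) ℂ := aeval φ F

omit [Fintype ι] [DecidableEq ι] in
theorem eval_pull (φ : ι → MvPolynomial (Fin 6) ℂ) (F : MvPolynomial ι ℂ) (u : Fin 6 → ℂ) :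
    eval u (pull φ F) = eval (ev φ u) F := by
  unfold pull ev
  rw [aeval_def, ← coe_eval₂Hom, ← RingHom.comp_apply]
  have : (eval u).comp (eval₂Hom (algebraMap ℂ (MvPolynomial (Fin 6) ℂ)) φ) =
      (eval fun i => eval u (φ i)) := by
    apply MvPolynomial.ringHom_ext
    · intro r
      simp [algebraMap_eq]
    · intro i
      simp
  rw [this]

/-- A linear form, as a polynomial. -/
noncomputable def form (l : (ι → ℂ) →ₗ[ℂ] ℂ) : MvPolynomial ι ℂ :=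
  ∑ i, C (l (Pi.single i 1)) * X i

theorem eval_form (l : (ι → ℂ) →ₗ[ℂ] ℂ) (z : ι → ℂ) : eval z (form l) = l z := by
  unfold form
  rw [map_sum]
  have h : z = ∑ i, z i • (Pi.single i (1 : ℂ) : ι → ℂ) := by
    ext j
    simp [Finset.sum_apply, Pi.single_apply]
  conv_rhs => rw [h]
  rw [map_sum]
  refine Finset.sum_congr rfl fun i _ => ?_
  rw [map_smul]
  simp [mul_comm]

theorem form_hom (l : (ι → ℂ) →ₗ[ℂ] ℂ) : (form l).IsHomogeneous 1 := by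
  unfold form
  apply IsHomogeneous.sum
  intro i _
  have := (isHomogeneous_C ι (l (Pi.single i 1))).mul (isHomogeneous_X ℂ i)
  simpa using this

/-- The polynomial `F ∘ w`. -/
noncomputable def subst (w : (ι → ℂ) →ₗ[ℂ] (ι → ℂ)) (F : MvPolynomial ι ℂ) : MvPolynomial ι ℂ :=
  aeval (fun i => form (LinearMap.proj i ∘ₗ w)) F

theorem eval_subst (w : (ι → ℂ) →ₗ[ℂ] (ι → ℂ)) (F : MvPolynomial ι ℂ) (z : ι → ℂ) :
    eval z (subst w F) = eval (w z) F := by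
  unfold subst
  rw [aeval_def, ← coe_eval₂Hom, ← RingHom.comp_apply]
  have : (eval z).comp (eval₂Hom (algebraMap ℂ (MvPolynomial ι ℂ))
      (fun i => form (LinearMap.proj i ∘ₗ w))) = eval (w z) := by
    apply MvPolynomial.ringHom_ext
    · intro r
      simp [algebraMap_eq]
    · intro i
      simp [eval_form]
  rw [this]

theorem subst_hom (w : (ι → ℂ) →ₗ[ℂ] (ι → ℂ)) {F : MvPolynomial ι ℂ} {n : ℕ}
    (h : F.IsHomogeneous n) : (subst w F).IsHomogeneous n := by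
  have := h.aeval (fun i => form (LinearMap.proj i ∘ₗ w)) (n := 1) (fun i => form_hom _)
  simpa [subst] using this

/-- The product of the linear forms, as an alternating form. -/
noncomputable def omegaN {n : ℕ} (L : Fin n → ((ι → ℂ) →ₗ[ℂ] ℂ)) : (ι → ℂ) [⋀^Fin n]→ₗ[ℂ] ℂ :=
  (Matrix.detRowAlternating (n := Fin n) (R := ℂ)).compLinearMap (LinearMap.pi L)

omit [Fintype ι] [DecidableEq ι] in
theorem omegaN_apply {n : ℕ} (L : Fin n → ((ι → ℂ) →ₗ[ℂ] ℂ)) (v : Fin n → ι → ℂ) :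
    omegaN L v = Matrix.det (Matrix.of fun i j => L j (v i)) := rfl

/-- The product of the seven linear forms, as an alternating form. -/
noncomputable def omega (L : Fin 7 → ((ι → ℂ) →ₗ[ℂ] ℂ)) : (ι → ℂ) [⋀^Fin 7]→ₗ[ℂ] ℂ := omegaN L

omit [Fintype ι] [DecidableEq ι] in
theorem omega_apply (L : Fin 7 → ((ι → ℂ) →ₗ[ℂ] ℂ)) (v : Fin 7 → ι → ℂ) :
    omega L v = Matrix.det (Matrix.of fun i j => L j (v i)) := omegaN_apply L v

/-- The polynomial `L_0 ∘ w ∘ φ` in the parameters. -/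
noncomputable def qpoly (φ : ι → MvPolynomial (Fin 6) ℂ) (L : Fin 7 → ((ι → ℂ) →ₗ[ℂ] ℂ))
    (w : (ι → ℂ) ≃ₗ[ℂ] (ι → ℂ)) : MvPolynomial (Fin 6) ℂ :=
  pull φ (form (L 0 ∘ₗ w.toLinearMap))

theorem eval_qpoly (φ : ι → MvPolynomial (Fin 6) ℂ) (L : Fin 7 → ((ι → ℂ) →ₗ[ℂ] ℂ))
    (w : (ι → ℂ) ≃ₗ[ℂ] (ι → ℂ)) (u : Fin 6 → ℂ) :
    eval u (qpoly φ L w) = L 0 (w (ev φ u)) := by
  unfold qpoly
  rw [eval_pull, eval_form]
  rfl

/-- A cone `C` with a parametrization `φ` of a cell, seven linear forms `L`, and a set `W` of linear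
automorphisms, one of which is `γ`. -/
structure Cells (ι : Type) where
  C : Set (ι → ℂ)
  φ : ι → MvPolynomial (Fin 6) ℂ
  L : Fin 7 → ((ι → ℂ) →ₗ[ℂ] ℂ)
  W : Set ((ι → ℂ) ≃ₗ[ℂ] (ι → ℂ))
  γ : (ι → ℂ) ≃ₗ[ℂ] (ι → ℂ)
  κ : ℂ

/-- The cone `C` is covered by cells: the images of the cell
`{t • ev φ u | t ≠ 0} = {z ∈ C | L_0 z ≠ 0}` under linear automorphisms `w ∈ W` which preserve `C`. -/
structure Cells.Cov (K : Cells ι) : Prop where
  closed : ∃ S : Set (MvPolynomial ι ℂ), K.C = {z | ∀ F ∈ S, eval z F = 0}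
  smul_mem : ∀ (t : ℂ) (u : Fin 6 → ℂ), t • ev K.φ u ∈ K.C
  cell : ∀ z ∈ K.C, K.L 0 z ≠ 0 → z = K.L 0 z • ev K.φ (fun j => K.L j.succ z / K.L 0 z)
  L_zero : ∀ u : Fin 6 → ℂ, K.L 0 (ev K.φ u) = 1
  L_succ : ∀ (u : Fin 6 → ℂ) (j : Fin 6), K.L j.succ (ev K.φ u) = u j
  mem_iff : ∀ w ∈ K.W, ∀ z, w z ∈ K.C ↔ z ∈ K.C
  cover : ∀ z ∈ K.C, z ≠ 0 →
    ∃ w ∈ K.W, ∃ (t : ℂ) (u : Fin 6 → ℂ), t ≠ 0 ∧ z = w (t • ev K.φ u)
  q_ne : ∀ w ∈ K.W, qpoly K.φ K.L w ≠ 0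

/-- The neighbouring cell `γ`, an involution. -/
structure Cells.Nbr (K : Cells ι) : Prop where
  one_mem : LinearEquiv.refl ℂ (ι → ℂ) ∈ K.W
  γ_mem : K.γ ∈ K.W
  γ_mul : ∀ w ∈ K.W, w.trans K.γ ∈ K.W
  γγ : ∀ z, K.γ (K.γ z) = z
  cop : ∀ w ∈ K.W, IsRelPrime (qpoly K.φ K.L w) (qpoly K.φ K.L (w.trans K.γ))
  prime : Prime (qpoly K.φ K.L K.γ)
  κ_ne : K.κ ≠ 0
  jac : ∀ u : Fin 6 → ℂ,
    omega K.L (fun i => K.γ (frame K.φ u i)) = K.κ * K.L 0 (K.γ (ev K.φ u)) ^ 4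

namespace Cells

variable (K : Cells ι)

/-- The point with parameters `u`. -/
noncomputable def pt (u : Fin 6 → ℂ) : ι → ℂ := ev K.φ u

/-- The polynomial `L_0 ∘ w ∘ φ`. -/
noncomputable def q (w : (ι → ℂ) ≃ₗ[ℂ] (ι → ℂ)) : MvPolynomial (Fin 6) ℂ := qpoly K.φ K.L w

/-- The function `s` on the cone without the origin is homogeneous of degree `d` and given by
polynomials `g w` in the cells. -/
def Reg (d : ℤ) (s : (ι → ℂ) → ℂ) (g : ((ι → ℂ) ≃ₗ[ℂ] (ι → ℂ)) → MvPolynomial (Fin 6) ℂ) : Prop :=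
  ∀ w ∈ K.W, ∀ t : ℂ, t ≠ 0 → ∀ u, s (w (t • K.pt u)) = t ^ d * eval u (g w)

theorem eval_q (w : (ι → ℂ) ≃ₗ[ℂ] (ι → ℂ)) (u : Fin 6 → ℂ) :
    eval u (K.q w) = K.L 0 (w (K.pt u)) := eval_qpoly _ _ _ _

variable {K}

theorem L_zero_pt (hK : K.Cov) (u : Fin 6 → ℂ) : K.L 0 (K.pt u) = 1 := hK.L_zero u

theorem L_succ_pt (hK : K.Cov) (u : Fin 6 → ℂ) (j : Fin 6) : K.L j.succ (K.pt u) = u j :=
  hK.L_succ u j

theorem L_zero_smul (hK : K.Cov) (t : ℂ) (u : Fin 6 → ℂ) : K.L 0 (t • K.pt u) = t := by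
  rw [map_smul, L_zero_pt hK, smul_eq_mul, mul_one]

theorem pt_ne (hK : K.Cov) (u : Fin 6 → ℂ) : K.pt u ≠ 0 := by
  intro h
  have := L_zero_pt hK u
  rw [h, map_zero] at this
  exact zero_ne_one this

theorem pt_mem (hK : K.Cov) (u : Fin 6 → ℂ) : K.pt u ∈ K.C := by
  have := hK.smul_mem 1 u
  rwa [one_smul] at this

/-- A point of the cone in the cell. -/
theorem eq_smul (hK : K.Cov) {z : ι → ℂ} (hz : z ∈ K.C) (h : K.L 0 z ≠ 0) :
    z = K.L 0 z • K.pt (fun j => K.L j.succ z / K.L 0 z) := hK.cell z hz h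

theorem cell_mem (hK : K.Cov) {w : (ι → ℂ) ≃ₗ[ℂ] (ι → ℂ)} (hw : w ∈ K.W) (t : ℂ)
    (u : Fin 6 → ℂ) : w (t • K.pt u) ∈ K.C := (hK.mem_iff w hw _).2 (hK.smul_mem t u)

theorem symm_mem (hK : K.Cov) {w : (ι → ℂ) ≃ₗ[ℂ] (ι → ℂ)} (hw : w ∈ K.W) {z : ι → ℂ}
    (hz : z ∈ K.C) : w.symm z ∈ K.C := by
  rw [← hK.mem_iff w hw, LinearEquiv.apply_symm_apply]
  exact hz

theorem ne_zero (hK : K.Cov) (w : (ι → ℂ) ≃ₗ[ℂ] (ι → ℂ)) {t : ℂ} (ht : t ≠ 0)
    (u : Fin 6 → ℂ) : w (t • K.pt u) ≠ 0 := by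
  intro h
  have h1 : t • K.pt u = 0 := by
    have := congrArg w.symm h
    simpa using this
  rcases smul_eq_zero.1 h1 with h2 | h2
  · exact ht h2
  · exact pt_ne hK u h2

end Cells

end Pool.Agent.T2h19.AP
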