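import Mathlib

/-!
# Projective manifolds: smoothness, canonical bundle, Picard number, trivial normal bundles

The projective space with homogeneous coordinates indexed by the finite set `ι`, and its closed
subvarieties `X`, given by their homogeneous ideals.
-/

set_option autoImplicit false

open MvPolynomial

namespace Pool.Agent.T2h19.AP

variable {ι : Type} [Fintype ι]

/-- `z` are homogeneous coordinates of a point of the closed subset of projective space given by the
ideal `I`. -/
def On (I : Ideal (MvPolynomial ι ℂ)) (z : ι → ℂ) : Prop :=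
  z ≠ 0 ∧ ∀ F ∈ I, eval z F = 0

/-- `I` is the homogeneous ideal of a projective variety (a nonempty integral closed subscheme of
projective space): it is prime and homogeneous, and has a nontrivial zero. -/
structure IsVariety (I : Ideal (MvPolynomial ι ℂ)) : Prop where
  prime : I.IsPrime
  homogeneous : ∀ F ∈ I, ∀ n : ℕ, homogeneousComponent n F ∈ I
  nonempty : ∃ z, On I z

/-- The tangent space at `z` of the cone over `X` in the affine space. -/
noncomputable def tangent (I : Ideal (MvPolynomial ι ℂ)) (z : ι → ℂ) : Submodule ℂ (ι → ℂ) where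
  carrier := {v | ∀ F ∈ I, ∑ i, eval z (pderiv i F) * v i = 0}
  zero_mem' := by intro F _; simp
  add_mem' := by
    intro a b ha hb F hF
    have h1 := ha F hF
    have h2 := hb F hF
    simp only [Pi.add_apply, mul_add, Finset.sum_add_distrib, h1, h2, add_zero]
  smul_mem' := by
    intro c a ha F hF
    have h1 := ha F hF
    have h2 : ∑ i, eval z (pderiv i F) * (c • a) i = c * ∑ i, eval z (pderiv i F) * a i := by
      rw [Finset.mul_sum]
      refine Finset.sum_congr rfl fun i _ => ?_
      simp only [Pi.smul_apply, smul_eq_mul]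
      ring
    rw [h2, h1, mul_zero]

/-- The variety `X` is smooth of dimension `n` (the tangent spaces of the cone over `X`, outside of
the origin, have dimension `n + 1`). -/
def IsSmooth (I : Ideal (MvPolynomial ι ℂ)) (n : ℕ) : Prop :=
  ∀ z, On I z → Module.finrank ℂ (tangent I z) = n + 1

/-- `s` is a section of the line bundle `O(d)` on `X`: a function on the cone over `X` without the
origin, homogeneous of degree `d`, which is locally a quotient of polynomials. -/
def IsSection (I : Ideal (MvPolynomial ι ℂ)) (d : ℤ) (s : (ι → ℂ) → ℂ) : Prop :=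
  (∀ z, On I z → ∀ t : ℂ, t ≠ 0 → s (t • z) = t ^ d * s z) ∧
  ∀ z₀, On I z₀ → ∃ a b : MvPolynomial ι ℂ, eval z₀ a ≠ 0 ∧
    ∀ z, On I z → eval z a * s z = eval z b

/-- `P` is the ideal of a prime divisor on `X`: an irreducible closed subset of codimension one, that
is a maximal one among the irreducible closed subsets of `X` different from `X`. -/
def IsPrimeDivisor (I P : Ideal (MvPolynomial ι ℂ)) : Prop :=
  IsVariety P ∧ I < P ∧ ∀ Q, IsVariety Q → I ≤ Q → Q ≤ P → Q = I ∨ Q = P

/-- Every prime divisor on `X` is the set of zeros of a section of one of the line bundles `O(d)`. So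
for a smooth variety `X`, some positive multiple of every divisor is linearly equivalent to a multiple of
the hyperplane section, and the Picard number is one. -/
def PicardNumberOne (I : Ideal (MvPolynomial ι ℂ)) : Prop :=
  ∀ P, IsPrimeDivisor I P →
    ∃ (d : ℤ) (s : (ι → ℂ) → ℂ), IsSection I d s ∧ ∀ z, On I z → (s z = 0 ↔ On P z)

/-- The canonical bundle of the manifold `X` of dimension `n` is `O(-r)`: there is a nowhere vanishing
alternating form `Θ` of top degree on the tangent spaces of the cone over `X` without the origin,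
locally with coefficients which are quotients of polynomials, such that the pull-back of `Θ` by the
multiplication by `t` is `t ^ r` times `Θ`. (For the projective space, `Θ = dz_0 ∧ … ∧ dz_n` and
`r = n + 1`.) -/
def CanonicalIs (I : Ideal (MvPolynomial ι ℂ)) (n : ℕ) (r : ℤ) : Prop :=
  ∃ Θ : (ι → ℂ) → ((ι → ℂ) [⋀^Fin (n + 1)]→ₗ[ℂ] ℂ),
    (∀ z, On I z → ∃ v : Fin (n + 1) → ι → ℂ, (∀ i, v i ∈ tangent I z) ∧ Θ z v ≠ 0) ∧
    (∀ z, On I z → ∀ t : ℂ, t ≠ 0 → ∀ v : Fin (n + 1) → ι → ℂ, (∀ i, v i ∈ tangent I z) →
      Θ (t • z) (fun i => t • v i) = t ^ r * Θ z v) ∧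
    ∀ z₀, On I z₀ → ∃ (a : MvPolynomial ι ℂ) (b : (Fin (n + 1) → ι) → MvPolynomial ι ℂ),
      eval z₀ a ≠ 0 ∧ ∀ z, On I z → ∀ v : Fin (n + 1) → ι → ℂ, (∀ i, v i ∈ tangent I z) →
        eval z a * Θ z v = ∑ σ : Fin (n + 1) → ι, eval z (b σ) * ∏ i, v i (σ i)

/-- The linear subspace `ℙ(L)` of dimension `k` is contained in the manifold `X` of dimension `n`, and
its normal bundle in `X` is trivial. A section of the normal bundle, a subbundle of
`N_{ℙ(L)/ℙ(ℂ^ι)} = (ℂ^ι / L) ⊗ O(1)`, is given by a linear map `A` from `L` to `ℂ^ι` such that `A z` is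
in the tangent space of the cone at `z`, for all `z`; there have to be `n - k` sections which are a
basis of the fibre `tangent z / L` at every point. -/
def IsLinearWithTrivialNormalBundle (I : Ideal (MvPolynomial ι ℂ)) (n k : ℕ)
    (L : Submodule ℂ (ι → ℂ)) : Prop :=
  Module.finrank ℂ L = k + 1 ∧ (∀ z ∈ L, z ≠ 0 → On I z) ∧
    ∃ A : Fin (n - k) → ((ι → ℂ) →ₗ[ℂ] (ι → ℂ)), ∀ z ∈ L, z ≠ 0 →
      LinearIndependent ℂ (fun i => L.mkQ (A i z)) ∧
      tangent I z = L ⊔ Submodule.span ℂ (Set.range fun i => A i z)

end Pool.Agent.T2h19.AP
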