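import Pool.Agent.T2h19.AP.Base

/-!
# Statements, abstract part

In all statements `K : Cells ι` is a cone covered by cells (`K.Cov`, `K.Nbr`: see
`Pool/Agent/T2h19/AP/Base.lean`). `K.pt u = ev K.φ u`, `K.q w = L_0 ∘ w ∘ φ` (polynomial in the six
parameters), `K.eval_q`. The cell of `w ∈ W` is `{w (t • K.pt u) | t ≠ 0}`; the basic cell (`w = 1`)
is `{z ∈ C | L_0 z ≠ 0}` (`Cells.eq_smul`).
-/

set_option autoImplicit false

open MvPolynomial

namespace Pool.Agent.T2h19.AP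

/-- HOM (80 lines). Homogenization: `a ^ M * g(b / a)` is a polynomial for `M ≥ M₀` (`M₀` = total degree
of `g`). Proof: write `g` as the sum of its monomials `c_m u^m` over `g.support`, and take
`H = ∑ C c_m * (∏ j, b j ^ m j) * a ^ (M - |m|)`, `|m| = ∑ j, m j ≤ g.totalDegree`
(`MvPolynomial.le_totalDegree`). -/
def S_HOM : Prop :=
  ∀ (σ : Type) [Fintype σ] (g : MvPolynomial (Fin 6) ℂ), ∃ M₀ : ℕ, ∀ M, M₀ ≤ M →
    ∀ (a : MvPolynomial σ ℂ) (b : Fin 6 → MvPolynomial σ ℂ), ∃ H : MvPolynomial σ ℂ,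
      (∀ z : σ → ℂ, eval z a ≠ 0 →
        eval z H = eval z a ^ M * eval (fun j => eval z (b j) / eval z a) g) ∧
      (a.IsHomogeneous 1 → (∀ j, (b j).IsHomogeneous 1) → H.IsHomogeneous M)

/-- DEN (60 lines). A polynomial which vanishes on the basic cell vanishes on `C`. Proof: let `z ∈ C`,
`z ≠ 0`, `z = w (t • K.pt u₀)` (`hK.cover`). Let `G` be the polynomial in `u` with
`eval u G = eval (w (t • K.pt u)) F` (`G = pull K.φ (subst (t • w) F)`). If `eval u (K.q w) ≠ 0` then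
`z' = w (t • K.pt u) ∈ C` has `L_0 z' ≠ 0`, so `z' = L_0 z' • K.pt _` (`Cells.eq_smul`) and
`eval u G = 0`. So `K.q w * G = 0` (`MvPolynomial.funext`), and `K.q w ≠ 0` (`hK.q_ne`), so `G = 0`.
For `z = 0` take `t = 0`. -/
def S_DEN : Prop :=
  ∀ (ι : Type) [Fintype ι] [DecidableEq ι] (K : Cells ι), K.Cov → ∀ F : MvPolynomial ι ℂ,
    (∀ (t : ℂ) (u : Fin 6 → ℂ), eval (t • K.pt u) F = 0) → ∀ z ∈ K.C, eval z F = 0

/-- VAR (100 lines; hypothesis S_DEN). The ideal of `C` is the ideal of a projective variety, and its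
zeros are the points of `C`. Proof. Zeros: `hK.closed`. Prime: let `F G` vanish on `C`. Consider the
polynomials `F(t φ(u))`, `G(t φ(u))` in the seven variables `t, u` (e.g. in `MvPolynomial (Option
(Fin 6)) ℂ` or in `MvPolynomial (Fin 7) ℂ`); their product is zero (`MvPolynomial.funext`), so one of
them is zero, and it vanishes on `C` by S_DEN. `1` is not in the ideal as `K.pt 0 ∈ C`. Homogeneous:
`C` is a cone (for `z ∈ C`, `z ≠ 0`: `z = w (t • pt u)` and `c • z = w ((c t) • pt u)`), so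
`∑ n, c ^ n * eval z (F_n) = 0` for all `c` and each `eval z (F_n) = 0`. -/
def S_VAR : Prop :=
  ∀ (ι : Type) [Fintype ι] [DecidableEq ι] (K : Cells ι), K.Cov →
    IsVariety (ideal K.C) ∧ ∀ z, On (ideal K.C) z ↔ z ∈ K.C ∧ z ≠ 0

/-- OMF (60 lines). The frame is dual to the linear forms: the matrix `L_j (frame u i)` is
unitriangular. `L_0 (pt u) = 1`, `L_(j+1) (pt u) = u j`; by differentiation `L_0 (∂_a) = 0`,
`L_(j+1) (∂_a) = δ_(aj)` (the polynomials `pull K.φ (form (K.L j))` are `1` and `X j` by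
`MvPolynomial.funext`, and `pderiv` commutes with the linear combination). So the matrix is
`[[1, u], [0, 1]]` (`Matrix.det_fin_succ..` / block triangular / `Matrix.det_of_upperTriangular`). -/
def S_OMF : Prop :=
  ∀ (ι : Type) [Fintype ι] [DecidableEq ι] (K : Cells ι), K.Cov → ∀ u : Fin 6 → ℂ,
    omega K.L (frame K.φ u) = 1 ∧
    (∀ a : Fin 6, K.L 0 (dev K.φ a u) = 0) ∧
    ∀ a j : Fin 6, K.L j.succ (dev K.φ a u) = if a = j then 1 else 0

/-- ALT (50 lines). Two alternating forms of degree seven which are proportional on seven vectors `b`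
are proportional on their span. Proof: write `v i = ∑ j, c i j • b j`; then `f v = det c * f b` (e.g.
`AlternatingMap.map_linearDependent` if `b` is dependent, `Basis.ext_alternating` /
`AlternatingMap.eq_smul_basis_det` in the span otherwise; or: for fixed `b` the map
`c ↦ f (fun i => ∑ j, c i j • b j)` is alternating in the rows of `c`, so it is a multiple of the
determinant, `Matrix.detRowAlternating`, `AlternatingMap.eq_smul_basis_det` for the standard basis). -/
def S_ALT : Prop :=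
  ∀ (ι : Type) [Fintype ι] (f g : (ι → ℂ) [⋀^Fin 7]→ₗ[ℂ] ℂ) (b : Fin 7 → ι → ℂ) (κ : ℂ),
    f b = κ * g b → ∀ v : Fin 7 → ι → ℂ, (∀ i, v i ∈ Submodule.span ℂ (Set.range b)) →
      f v = κ * g v

/-- TNW (40 lines). The automorphisms `w ∈ W` map tangent spaces to tangent spaces. For `F` in the ideal
the polynomials `subst w F`, `subst w.symm F` are in the ideal (`hK.mem_iff`, `eval_subst`), and
`∑ i, ∂_i (F ∘ w) (z) v_i = ∑ i, ∂_i F (w z) (w v)_i` (chain rule; e.g. first show for polynomials in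
general that `∑ i, eval z (pderiv i F) * v i` is the derivative of `F (z + ε v)`, or by
`MvPolynomial.induction_on`). -/
def S_TNW : Prop :=
  ∀ (ι : Type) [Fintype ι] [DecidableEq ι] (K : Cells ι), K.Cov →
    ∀ w ∈ K.W, ∀ z v, w v ∈ tangent (ideal K.C) (w z) ↔ v ∈ tangent (ideal K.C) z

/-- TAU (80 lines). The frame is tangent to the cone at the points `t • pt u`: for `F ∈ ideal C` the
function `F (t • pt u)` of `t` and `u` is identically zero; take the derivatives with respect to `t` at `t`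
(gives `∑ ∂_i F (t • pt u) (pt u)_i = 0`) and to `u_a` (gives `t * ∑ ∂_i F (t • pt u) (dev a u)_i = 0`).
(For fixed `t` the polynomial `aeval (fun i => C t * K.φ i) F` is zero by `MvPolynomial.funext`; apply
`pderiv a`. For the first one use the polynomial in one variable `t`, for fixed `u`.) -/
def S_TAU : Prop :=
  ∀ (ι : Type) [Fintype ι] [DecidableEq ι] (K : Cells ι), K.Cov →
    ∀ t : ℂ, t ≠ 0 → ∀ (u : Fin 6 → ℂ) (i : Fin 7),
      frame K.φ u i ∈ tangent (ideal K.C) (t • K.pt u)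

/-- TAL (120 lines; hypothesis S_HOM). A tangent vector `v` at `z₀ = t • pt u` with `L_j v = 0` for all
`j` is zero. Proof: for each coordinate `i`, HOM for `g = K.φ i`, `a = form (L 0)`,
`b j = form (L j.succ)`, `M` large (`M ≥ 2`), gives a polynomial `H` with
`eval z H = L_0(z)^M * φ_i(L(z)/L_0(z))` if `L_0 z ≠ 0`. The polynomial
`E = a ^ M * X i - a * H` vanishes on `C`: if `L_0 z ≠ 0`, `z i = L_0 z * φ_i(L(z)/L_0(z))` by
`Cells.eq_smul`; if `L_0 z = 0` trivially. So the derivative of `E` at `z₀` in the direction `v` is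
zero; since `L_0 v = 0` it is `t^M * v i - t * dH(v)`, and `dH(v) = 0`, as `H` can be chosen as a polynomial
in the forms `L_j` (use the explicit `H` of HOM, or: `E' = a^M X i - a H` and note that for the given `M`
`H(z) = L_0(z)^M g(L(z)/L_0(z))` depends only on the `L_j(z)`: for all `s` near `0`, also
`H (z₀ + s v) = H (z₀)` (as `L_0 (z₀ + s v) = t ≠ 0`), so the polynomial `s ↦ H (z₀ + s v)` is constant and
`dH(v) = 0`). So `v i = 0`. -/
def S_TAL : Prop :=
  ∀ (ι : Type) [Fintype ι] [DecidableEq ι] (K : Cells ι), K.Cov →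
    ∀ t : ℂ, t ≠ 0 → ∀ (u : Fin 6 → ℂ) (v : ι → ℂ), v ∈ tangent (ideal K.C) (t • K.pt u) →
      (∀ j, K.L j v = 0) → v = 0

/-- TAN (60 lines; hypotheses S_OMF, S_TNW, S_TAU, S_TAL). The tangent spaces of the cone. By TNW assume
`w = 1` (`tangent (w z) = map w (tangent z)`). For `v` tangent at `t • pt u` let `v'` be the
combination of the frame with the same values of the `L_j` (`v' = L_0 v • pt u +
∑ a, (L_(a+1) v - L_0 v * u a) • dev a u`); `v - v'` is tangent and all its `L_j` are zero. -/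
def S_TAN : Prop :=
  ∀ (ι : Type) [Fintype ι] [DecidableEq ι] (K : Cells ι), K.Cov →
    ∀ w ∈ K.W, ∀ t : ℂ, t ≠ 0 → ∀ u : Fin 6 → ℂ,
      tangent (ideal K.C) (w (t • K.pt u)) =
        Submodule.span ℂ (Set.range fun i => w (frame K.φ u i))

/-- DIM (40 lines; hypotheses S_VAR, S_OMF, S_TAN). `X` is smooth of dimension six: the seven vectors
`w (frame u i)` are linearly independent since `omega K.L (frame u) = 1`
(`AlternatingMap.map_linearDependent`). -/
def S_DIM : Prop :=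
  ∀ (ι : Type) [Fintype ι] [DecidableEq ι] (K : Cells ι), K.Cov → IsSmooth (ideal K.C) 6

/-- FRM (30 lines). A form of degree `n` is a regular function of degree `n`:
`F (w (t • pt u)) = t ^ n * F (w (pt u))` (`IsHomogeneous.eval₂`, or `MvPolynomial.IsHomogeneous`
lemmas; `eval_pull`, `eval_subst`). -/
def S_FRM : Prop :=
  ∀ (ι : Type) [Fintype ι] [DecidableEq ι] (K : Cells ι) (F : MvPolynomial ι ℂ) (n : ℕ),
    F.IsHomogeneous n → K.Reg n (fun z => eval z F)
      (fun w => pull K.φ (subst w.toLinearMap F))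

/-- AGR (50 lines). Two regular functions of the same degree which agree on the basic cell agree
everywhere: in the cell of `w`, `K.q w * (g w - g' w) = 0`. -/
def S_AGR : Prop :=
  ∀ (ι : Type) [Fintype ι] [DecidableEq ι] (K : Cells ι), K.Cov →
    ∀ (d : ℤ) (s s' : (ι → ℂ) → ℂ) (g g' : ((ι → ℂ) ≃ₗ[ℂ] (ι → ℂ)) → MvPolynomial (Fin 6) ℂ),
      K.Reg d s g → K.Reg d s' g' → (∀ z ∈ K.C, K.L 0 z ≠ 0 → s z = s' z) →
      (∀ z ∈ K.C, z ≠ 0 → s z = s' z) ∧ ∀ w ∈ K.W, g w = g' w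

/-- CON (150 lines; hypothesis S_HOM). Extension of functions from the basic cell. Let `s₀` be given
on the part `L_0 ≠ 0` of each cell by a polynomial `g w`. Then it extends to a regular function.
Proof: define `s z = t ^ d * eval u (g w)` for a chosen representation `z = w (t • pt u)` (`w ∈ W`,
`t ≠ 0`); the point is that this does not depend on the choice. Let `w₁ (t₁ • pt u₁) =
w₂ (t₂ • pt u₂)`. Put `ρ(u) = L_0 (w₂⁻¹ w₁ pt u)`, `P_j(u) = L_(j+1) (w₂⁻¹ w₁ pt u)` (polynomials in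
`u`: `pull K.φ (form ...)`). For `ρ(u) ≠ 0` we have `w₁ (pt u) = w₂ (ρ(u) • pt (P(u)/ρ(u)))`
(`Cells.eq_smul` for `w₂⁻¹ w₁ pt u ∈ C`). If moreover `eval u (K.q w₁) ≠ 0` then the hypothesis on
`s₀`, used twice, gives `eval u (g w₁) = ρ(u) ^ d * eval (P(u)/ρ(u)) (g w₂)`. With HOM (`σ = Fin 6`,
`a = ρ`, `b = P`) we get an identity of polynomials `q w₁ * ρ * (ρ ^ m * g w₁ - ρ ^ m' * H) = 0`, and
both `q w₁ ≠ 0` and `ρ ≠ 0` (since `ρ(u₁) = t₂/t₁`), so it holds at `u₁`, where `ρ(u₁) = t₂ / t₁` and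
`P(u₁)/ρ(u₁) = u₂`. -/
def S_CON : Prop :=
  ∀ (ι : Type) [Fintype ι] [DecidableEq ι] (K : Cells ι), K.Cov →
    ∀ (d : ℤ) (s₀ : (ι → ℂ) → ℂ) (g : ((ι → ℂ) ≃ₗ[ℂ] (ι → ℂ)) → MvPolynomial (Fin 6) ℂ),
      (∀ w ∈ K.W, ∀ t : ℂ, t ≠ 0 → ∀ u, K.L 0 (w (t • K.pt u)) ≠ 0 →
        s₀ (w (t • K.pt u)) = t ^ d * eval u (g w)) →
      ∃ s : (ι → ℂ) → ℂ, K.Reg d s g ∧ ∀ z ∈ K.C, K.L 0 z ≠ 0 → s z = s₀ z

/-- SCT (80 lines; hypotheses S_HOM, S_VAR). Regular functions are sections of `O(d)`: near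
`z₀ = w (t₀ • pt u₀)` we have `s z = λ ^ d * g(P/λ)` with `λ = L_0 (w⁻¹ z)`, `P_j = L_(j+1) (w⁻¹ z)`,
so `λ ^ N * s z` is a polynomial for large `N` (HOM with `σ = ι`, `a = form (L 0 ∘ w.symm)`). Take
`a = λ ^ (N+1)`, `b = λ ^ .. * H` such that the identity `a s = b` is also true where `λ = 0`
(both sides zero). -/
def S_SCT : Prop :=
  ∀ (ι : Type) [Fintype ι] [DecidableEq ι] (K : Cells ι), K.Cov →
    ∀ (d : ℤ) (s : (ι → ℂ) → ℂ) (g : ((ι → ℂ) ≃ₗ[ℂ] (ι → ℂ)) → MvPolynomial (Fin 6) ℂ),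
      K.Reg d s g → IsSection (ideal K.C) d s

/-- DIV (200 lines; hypotheses S_HOM, S_CON). Division by `L_0`. Proof. Put `q = K.q K.γ`,
`g γ = q * h`. Let `w ∈ W`, `q_w = K.q w`, `q'_w = K.q (w.trans γ)` (`w.trans γ = γ ∘ w`). For
`q'_w(u) ≠ 0`: `γ w pt u = q'_w(u) • pt u'`, `u' = P(u)/q'_w(u)`, `P_j(u) = L_(j+1) (γ w pt u)`, so
`w pt u = γ (q'_w(u) • pt u')` (`hN.γγ`), `s (w pt u) = q'_w(u)^d * q(u') * h(u')` and
`q_w(u) = L_0 (w pt u) = q'_w(u) * q(u')`. So `eval u (g w) = q_w(u) * q'_w(u)^(d-1) * h(P/q'_w)`, and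
by HOM (`σ = Fin 6`) `q'_w ^ m * g w = q_w * H'` for a polynomial `H'` and some `m` (multiply by one more
`q'_w` to have it for all `u`). As `q_w` and `q'_w` are relatively prime (`hN.cop`), `q_w ∣ g w`
(`IsRelPrime.pow_right`, `IsRelPrime.dvd_of_dvd_mul_left`). Let `g w = q_w * g' w` (any `g' w` for
`w ∉ W`). Apply CON to `s₀ z = s z / L_0 z`, degree `d - 1`: if `L_0 (w (t • pt u)) = t q_w(u) ≠ 0`
then `s₀ = t^d q_w g' / (t q_w)`. Finally `s z = L_0 z * s' z`: in the cell of `w` both sides are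
`t^d q_w(u) g'(u)`. -/
def S_DIV : Prop :=
  ∀ (ι : Type) [Fintype ι] [DecidableEq ι] (K : Cells ι), K.Cov → K.Nbr →
    ∀ (d : ℤ) (s : (ι → ℂ) → ℂ) (g : ((ι → ℂ) ≃ₗ[ℂ] (ι → ℂ)) → MvPolynomial (Fin 6) ℂ),
      K.Reg d s g → K.q K.γ ∣ g K.γ →
      ∃ (s' : (ι → ℂ) → ℂ) (g' : ((ι → ℂ) ≃ₗ[ℂ] (ι → ℂ)) → MvPolynomial (Fin 6) ℂ),
        K.Reg (d - 1) s' g' ∧ (∀ w ∈ K.W, g w = K.q w * g' w) ∧
        ∀ z ∈ K.C, z ≠ 0 → s z = K.L 0 z * s' z

/-- PRD (200 lines; hypotheses S_HOM, S_DEN, S_VAR). The prime divisors which meet the basic cell.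
Proof. `L_0 ∉ P` (as a polynomial `form (K.L 0)`). Homogenization: for every `f` there is a form `F_f` of
some degree with `pull F_f = f` (HOM with `σ = ι`, `a = form (L 0)`, `b j = form (L j.succ)`, as
`L_0 (pt u) = 1`). If `F`, `G` are forms with `pull F = pull G` then `L_0^a F - L_0^b G ∈ ideal C` for
suitable `a`, `b` (same degree, DEN). Choose a form `F ∈ P`, `F ∉ ideal C` (`P` is homogeneous and
larger). `pull F ≠ 0` (DEN). Write `pull F = c ∏ f_i`, `f_i` irreducible (`UniqueFactorizationMonoid`,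
e.g. `WfDvdMonoid.exists_irreducible_factor` and induction, or `exists_multiset..`); then
`∏ F_(f_i) * L_0^a - c⁻¹ F L_0^b ∈ ideal C ≤ P`, so some `F_(f_i) ∈ P`: put `f = f_i`. Put
`Q = {G | ∀ n, f ∣ pull (G_n)}`: a homogeneous prime ideal (`f` is prime; for the prime property of a
homogeneous ideal consider the highest (or lowest) components not in `Q`), `ideal C ≤ Q`, `Q ≤ P` (if
`G` is a form with `pull G = f h` then `G L_0^b - F_f F_h L_0^a ∈ ideal C`, so `G ∈ P`), and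
`Q ≠ ideal C` as `F_f ∈ Q`. So `Q = P` (minimality). The second conclusion: if `f(u) = 0` then all
forms of `P` vanish at `t • pt u`, and `F_f ∈ P` with `F_f (t • pt u) = t^m f(u)`. -/
def S_PRD : Prop :=
  ∀ (ι : Type) [Fintype ι] [DecidableEq ι] (K : Cells ι), K.Cov →
    ∀ P : Ideal (MvPolynomial ι ℂ), IsPrimeDivisor (ideal K.C) P →
      (∃ z, On P z ∧ K.L 0 z ≠ 0) →
      ∃ f : MvPolynomial (Fin 6) ℂ, Irreducible f ∧
        (∀ t : ℂ, t ≠ 0 → ∀ u : Fin 6 → ℂ, (On P (t • K.pt u) ↔ eval u f = 0)) ∧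
        ∀ F, F ∈ P ↔ ∀ n, f ∣ pull K.φ (homogeneousComponent n F)

/-- SEC (100 lines; hypotheses S_HOM, S_DEN, S_FRM, S_DIV). Every polynomial `f ≠ 0` on the basic cell
extends to a regular function of some degree which is not divisible by `L_0`. Proof. HOM gives a form
`F` of degree `M` with `F (pt u) = f(u)`; FRM makes it a regular function with
`g γ = pull (subst γ F) ≠ 0` (otherwise `F ∘ γ` vanishes on the basic cell, so on `C` by DEN, and
`F (pt u) = F (γ (γ (pt u))) = 0`). Divide by `L_0` (DIV) as long as `q γ ∣ g γ`; this ends since the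
multiplicity of the prime `q γ` in `g γ` is finite (`FiniteMultiplicity`, or induction on
`totalDegree` — `q γ` is not a unit). In each step `s = L_0 s'`, so `s' (pt u) = s (pt u)`. -/
def S_SEC : Prop :=
  ∀ (ι : Type) [Fintype ι] [DecidableEq ι] (K : Cells ι), K.Cov → K.Nbr →
    ∀ f : MvPolynomial (Fin 6) ℂ, f ≠ 0 →
      ∃ (d : ℤ) (s : (ι → ℂ) → ℂ)
        (g : ((ι → ℂ) ≃ₗ[ℂ] (ι → ℂ)) → MvPolynomial (Fin 6) ℂ),
        K.Reg d s g ∧ ¬ K.q K.γ ∣ g K.γ ∧ ∀ u, s (K.pt u) = eval u f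

/-- ZRA (100 lines; hypotheses S_HOM, S_VAR). The section vanishes on the divisor. Let
`z = w (t • pt u₀)` be on `P` (it is in `C`, as `ideal C ≤ P`, S_VAR); to show `(g w)(u₀) = 0`. By HOM
(`σ = ι`, `a = form (L 0 ∘ w.symm)`, `b j = form (L j.succ ∘ w.symm)`) there are a large `M` and a form
`G` with `G(z') = λ^M (g w)(P/λ)`, `λ = L_0 (w⁻¹ z')`, for `λ ≠ 0`. Take `z' = pt u`; if
`ρ(u) = L_0 (w⁻¹ pt u) ≠ 0` then `pt u = w (ρ(u) • pt u')`, so `s (pt u) = ρ(u)^d (g w)(u')` and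
`G (pt u) = ρ(u)^(M - d) f(u)`. So `ρ * pull G = ρ * ρ^(M-d) * f` and, as `ρ ≠ 0` (there is a point of
`C` with `L_0 ≠ 0` in the cell of `w`, `hK.q_ne`), `f ∣ pull G`, `G ∈ P`, `G(z) = 0`, so
`(g w)(u₀) = 0`. -/
def S_ZRA : Prop :=
  ∀ (ι : Type) [Fintype ι] [DecidableEq ι] (K : Cells ι), K.Cov → K.Nbr →
    ∀ (P : Ideal (MvPolynomial ι ℂ)) (f : MvPolynomial (Fin 6) ℂ) (d : ℤ) (s : (ι → ℂ) → ℂ)
      (g : ((ι → ℂ) ≃ₗ[ℂ] (ι → ℂ)) → MvPolynomial (Fin 6) ℂ),
      ideal K.C ≤ P → (∀ F, F ∈ P ↔ ∀ n, f ∣ pull K.φ (homogeneousComponent n F)) →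
      K.Reg d s g → (∀ u, s (K.pt u) = eval u f) → ∀ z, On P z → s z = 0

/-- ZRB (150 lines; hypotheses S_HOM, S_FRM, S_AGR, S_DIV). The section vanishes only on the divisor.
It suffices to show `H(z) = 0` for the forms `H ∈ P`, say of degree `e` (`homogeneousComponent`, sum).
`pull H = f h`. Let `r` be the form of a large degree `N` with `pull r = h` (HOM). On the basic cell
`s (t • pt u) = t^d f(u)`, so `s r = L_0^j H` with `j = d + N - e ≥ 0`; by AGR this is true on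
`C \ {0}` (products of regular functions are regular, `L_0^j H` is a form). Now show by induction on
`j`: if `s r = L_0^j H` on `C \ {0}` for a regular function `r` (degree `j + e - d`), then
`H = s r'` on `C \ {0}` for some regular `r'`. Step: in the cell of `γ` (AGR gives the identity of the
polynomials) `(q γ)^j * g_H = g_s * g_r`, so the prime `q γ` divides `g_r` and `r = L_0 r'` by DIV;
then `s r' = L_0^(j-1) H` on the basic cell and so (AGR) everywhere. So `s(z) = 0` implies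
`H(z) = 0`. -/
def S_ZRB : Prop :=
  ∀ (ι : Type) [Fintype ι] [DecidableEq ι] (K : Cells ι), K.Cov → K.Nbr →
    ∀ (P : Ideal (MvPolynomial ι ℂ)) (f : MvPolynomial (Fin 6) ℂ) (d : ℤ) (s : (ι → ℂ) → ℂ)
      (g : ((ι → ℂ) ≃ₗ[ℂ] (ι → ℂ)) → MvPolynomial (Fin 6) ℂ),
      (∀ F, F ∈ P ↔ ∀ n, f ∣ pull K.φ (homogeneousComponent n F)) →
      K.Reg d s g → ¬ K.q K.γ ∣ g K.γ → (∀ u, s (K.pt u) = eval u f) →
      ∀ z ∈ K.C, z ≠ 0 → s z = 0 → On P z

/-- PIC (100 lines; hypotheses S_VAR, S_PRD, S_SEC, S_SCT, S_ZRA, S_ZRB). Picard number one. For a prime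
divisor `P` which meets the basic cell use S_PRD, S_SEC, S_ZRA, S_ZRB, S_SCT. In general choose
`w ∈ W` and a point `w (t • pt u)` on `P` (`hK.cover`), let `P' = {F | subst w.symm F ∈ P}`
(`Ideal.comap` of the ring homomorphism `subst w.symm`), so that `On P' z ↔ On P (w z)`; it is a prime
divisor (`F ↦ subst w.symm F` is an automorphism preserving `ideal C` and the homogeneous components)
which meets the basic cell; if `s'` is the section for `P'`, take `s z = s' (w.symm z)`. -/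
def S_PIC : Prop :=
  ∀ (ι : Type) [Fintype ι] [DecidableEq ι] (K : Cells ι), K.Cov → K.Nbr →
    PicardNumberOne (ideal K.C)

/-- GAM (60 lines; hypotheses S_OMF, S_ALT, S_TAN). The form `omega` and the involution `γ`: for
`z = t • pt u`, `t ≠ 0`, and tangent vectors `v i` at `z` we have
`t^4 * omega (γ v) = κ * (L_0 (γ z))^4 * omega v`. Proof: both sides are alternating in `v`; on the
basis `frame u` of the tangent space (S_TAN with `w = 1`) this is `hN.jac` and `omega (frame u) = 1`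
(apply S_ALT to `f v = omega (γ v)` and `g = omega`, factor `κ * (L_0 (γ (pt u)))^4`). -/
def S_GAM : Prop :=
  ∀ (ι : Type) [Fintype ι] [DecidableEq ι] (K : Cells ι), K.Cov → K.Nbr →
    ∀ z ∈ K.C, K.L 0 z ≠ 0 → ∀ v : Fin 7 → ι → ℂ, (∀ i, v i ∈ tangent (ideal K.C) z) →
      K.L 0 z ^ 4 * omega K.L (fun i => K.γ (v i)) = K.κ * K.L 0 (K.γ z) ^ 4 * omega K.L v

/-- JCW (200 lines; hypotheses S_OMF, S_TAN, S_ALT, S_GAM). For all `w ∈ W`,
`omega (w (frame u)) = c * (L_0 (w (pt u)))^4` with a constant `c ≠ 0`. Proof. `J_w(u) = omega (w (frame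
u))` is (the value of) a polynomial `J_w`. Let `w' = w.trans γ = γ ∘ w ∈ W`, `q = K.q w`,
`q' = K.q w'`. For `q'(u) ≠ 0` apply GAM to `z = w' (pt u)`, `v = w' (frame u)` (tangent at `z`: S_TAN):
`q'^4 J_w = κ q^4 J_(w')` (as `γ w' = w`); this holds for all `u` (polynomials, `q' ≠ 0`). As `q`, `q'`
are relatively prime, `J_w = q^4 h`, and then `J_(w') = κ⁻¹ q'^4 h`. Claim: `h` is constant. Otherwise it
has an irreducible factor `p`. If `p(u) = 0` then `J_w(u) = 0`, so the vectors `w (frame u i)`, which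
span the tangent space at `z = w (pt u)`, have `omega = 0`; if `L_0 z = q(u) ≠ 0` then `z` is in the basic
cell, where the tangent space at `z` is also spanned by a frame with `omega = 1`: since both families
span the same space and `omega` of one is `1`, S_ALT-type argument (write the frame in terms of the
`w (frame u i)`: if `omega` vanishes on these it vanishes on their span) gives a contradiction. So
`q(u) = 0`; in the same way `q'(u) = 0`. By the Nullstellensatz
(`MvPolynomial.vanishingIdeal_zeroLocus_eq_radical`) `p ∣ q` and `p ∣ q'`, contradiction to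
`hN.cop`. `h ≠ 0` because `J_w(u) ≠ 0` if `q(u) ≠ 0`. -/
def S_JCW : Prop :=
  ∀ (ι : Type) [Fintype ι] [DecidableEq ι] (K : Cells ι), K.Cov → K.Nbr →
    ∀ w ∈ K.W, ∃ c : ℂ, c ≠ 0 ∧
      ∀ u, omega K.L (fun i => w (frame K.φ u i)) = c * K.L 0 (w (K.pt u)) ^ 4

/-- THE (150 lines; hypotheses S_VAR, S_OMF, S_ALT, S_TAN, S_JCW). The canonical bundle is `O(-3)`.
Proof. For `w ∈ W` let `c_w` be the constant of S_JCW. For `z` in the cell of `w` (`L_0 (w⁻¹ z) ≠ 0`)
and `v` tangent at `z` put `Θ^w_z(v) = c_w (L_0 (w⁻¹ z))^(-4) omega (w⁻¹ v)`. If `L_0 z ≠ 0` this is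
`(L_0 z)^(-4) omega v` (S_ALT on the basis `w (frame u i)`, `z = w (t • pt u)`: `omega v = c_w
q_w(u)^4`, `omega (w⁻¹ v) = 1`, `L_0 z = t q_w(u)`, `L_0 (w⁻¹ z) = t`). So for `z` in the cells of `w₁`
and `w₂` the forms `Θ^(w₁)_z` and `Θ^(w₂)_z` agree on the tangent space: for `z = w₁ (t • pt u)`,
`v i = w₁ (frame u i)`, the equality is `c_(w₁) ρ(u)^4 = c_(w₂) omega (w₂⁻¹ w₁ frame u)`,
`ρ(u) = L_0 (w₂⁻¹ w₁ pt u)`, an identity of polynomials which holds for `q_(w₁)(u) ρ(u) ≠ 0`, so always.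
Choose for every `z ∈ C \ {0}` some `w` and define `Θ z = c_w (L_0 (w⁻¹ z))^(-4) • omega ∘ w⁻¹`.
Homogeneity: `Θ (t z)(t v) = t^(7-4) Θ z (v)`. Locally: `a = (form (L 0 ∘ w.symm))^4`, `b σ` constants
(expand `omega (w⁻¹ v)` in the coordinates: `MultilinearMap` on `v i = ∑ v i j e_j`,
`MultilinearMap.map_sum`). -/
def S_THE : Prop :=
  ∀ (ι : Type) [Fintype ι] [DecidableEq ι] (K : Cells ι), K.Cov → K.Nbr →
    CanonicalIs (ideal K.C) 6 3

end Pool.Agent.T2h19.AP
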