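import Pool.Agent.T2h19.AP.Asm
import Pool.Agent.T2h9.AP.HOM
import Pool.Agent.HX6.AP.DEN
import Pool.Agent.T2h78.AP.Var
import Pool.Agent.T2h99.AP.OMF
import Pool.Agent.T2h99.AP.ALT
import Pool.Agent.T2h41.AP.TNW
import Pool.Agent.T2h69.AP.TAU
import Pool.Agent.T2h78.AP.Tal
import Pool.Agent.T2h69.AP.TAN
import Pool.Agent.T2h99.AP.DIM
import Pool.Agent.T2h99.AP.FRM
import Pool.Agent.T2h99.AP.AGR
import Pool.Agent.T2h49.AP.ConE
import Pool.Agent.T2h69.AP.SCT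
import Pool.Agent.T2h49.AP.DivE
import Pool.Agent.T2h49.AP.PrdE
import Pool.Agent.T2h78.AP.Sec
import Pool.Agent.T2h78.AP.Zra
import Pool.Agent.T2h78.AP.Zrb
import Pool.Agent.T2h34.AP.PIC
import Pool.Agent.T2h99.AP.GAM
import Pool.Agent.T2h49.AP.JcwE
import Pool.Agent.T2h78.AP.The
import Pool.Agent.T2h32.AP.EVA
import Pool.Agent.T2h32.AP.NRM
import Pool.Agent.T2h41.AP.CLS
import Pool.Agent.T2h41.AP.CYC
import Pool.Agent.T2h18.AP.ADW
import Pool.Agent.T2h69.AP.COV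
import Pool.Agent.T2h32.AP.QAD
import Pool.Agent.T2h41.AP.CEV
import Pool.Agent.T2h41.AP.CNZ
import Pool.Agent.T2h99.AP.CPR
import Pool.Agent.T2h41.AP.CP2
import Pool.Agent.T2h18.AP.CP3
import Pool.Agent.T2h41.AP.CPA
import Pool.Agent.T2h99.AP.WQP
import Pool.Agent.T2h89.AP.JAC
import Pool.Agent.T2h18.AP.PLN

set_option autoImplicit false

namespace Pool.Agent.T2h19.AP

theorem hom : S_HOM := Pool.Agent.T2h9.AP.hom_
theorem den : S_DEN := Pool.Agent.HX6.AP.den_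
theorem var : S_VAR := Pool.Agent.T2h78.AP.var_ den
theorem omf : S_OMF := Pool.Agent.T2h99.AP.omf_
theorem alt : S_ALT := Pool.Agent.T2h99.AP.alt_
theorem tnw : S_TNW := tnw_
theorem tau : S_TAU := Pool.Agent.T2h69.AP.tau_
theorem tal : S_TAL := Pool.Agent.T2h78.AP.tal_ hom
theorem tan : S_TAN := Pool.Agent.T2h69.AP.tan_ omf tnw tau tal
theorem dim : S_DIM := Pool.Agent.T2h99.AP.dim_ var omf tan
theorem frm : S_FRM := Pool.Agent.T2h99.AP.frm_
theorem agr : S_AGR := Pool.Agent.T2h99.AP.agr_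
theorem con : S_CON := Pool.Agent.T2h49.AP.con hom
theorem sct : S_SCT := Pool.Agent.T2h69.AP.sct_ hom var
theorem div : S_DIV := Pool.Agent.T2h49.AP.div_ hom con
theorem prd : S_PRD := Pool.Agent.T2h49.AP.prd hom den var
theorem sec : S_SEC := Pool.Agent.T2h78.AP.sec_ hom den frm div
theorem zra : S_ZRA := Pool.Agent.T2h78.AP.zra_ hom var
theorem zrb : S_ZRB := Pool.Agent.T2h78.AP.zrb_ hom frm agr div
theorem pic : S_PIC := Pool.Agent.T2h34.AP.pic_ var prd sec sct zra zrb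
theorem gam : S_GAM := Pool.Agent.T2h99.AP.gam_ omf alt tan
theorem jcw : S_JCW := Pool.Agent.T2h49.AP.jcw omf tan alt gam
theorem the : S_THE := Pool.Agent.T2h78.AP.the_ var omf alt tan jcw
theorem eva : S_EVA := Pool.Agent.T2h32.AP.eva_
theorem nrm : S_NRM := Pool.Agent.T2h32.AP.nrm_ eva
theorem cls : S_CLS := cls_
theorem cyc : S_CYC := cyc_
theorem adw : S_ADW := Pool.Agent.T2h18.AP.adw_
theorem cov : S_COV := Pool.Agent.T2h69.AP.cov_ nrm cyc adw
theorem qad : S_QAD := Pool.Agent.T2h32.AP.qad_ eva adw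
theorem cev : S_CEV := cev_
theorem cnz : S_CNZ := cnz_ cev
theorem cpr : S_CPR := Pool.Agent.T2h99.AP.cpr_ eva nrm adw qad cev
theorem cp2 : S_CP2 := cp2_
theorem cp3 : S_CP3 := Pool.Agent.T2h18.AP.cp3_
theorem cpa : S_CPA := cpa_ cpr cp2 cp3 cev
theorem wqp : S_WQP := Pool.Agent.T2h99.AP.wqp_ qad cev cnz cpa adw
theorem jac : S_JAC := Pool.Agent.T2h89.AP.jac_ eva
theorem pln : S_PLN := Pool.Agent.T2h18.AP.pln_ adw

theorem fin : S_FIN :=
  fin_ (K0_cov eva nrm cls adw cov wqp) (K0_nbr adw wqp jac) var dim the pic pln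

end Pool.Agent.T2h19.AP
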