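import Pool.Agent.T2h19.AP.Base

/-!
# Abelian planes of matrices of trace zero
-/

set_option autoImplicit false

open MvPolynomial

namespace Pool.Agent.T2h19.AP

/-- The matrices of size three. -/
abbrev M3 := Matrix (Fin 3) (Fin 3) ℂ

/-- The index set of the coordinates of `x ⊗ y`, `x` and `y` matrices of size three. -/
abbrev I4 := (Fin 3 × Fin 3) × (Fin 3 × Fin 3)

section

variable {R : Type} [CommRing R]

/-- `x ∧ y = x ⊗ y - y ⊗ x` -/
def wedge (x y : Matrix (Fin 3) (Fin 3) R) : I4 → R :=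
  fun p => x p.1.1 p.1.2 * y p.2.1 p.2.2 - y p.1.1 p.1.2 * x p.2.1 p.2.2

/-- The multiplication with `e_1` in the algebra with unit `e_0` and the structure constants `u`. -/
def mA (u : Fin 6 → R) : Matrix (Fin 3) (Fin 3) R :=
  !![0, u 2 * u 1 + u 3 ^ 2 - u 0 * u 3 - u 1 * u 5, u 1 * u 4 - u 2 * u 3;
     1, u 0, u 2;
     0, u 1, u 3]

/-- The multiplication with `e_2` in the algebra with unit `e_0` and the structure constants `u`. -/
def mB (u : Fin 6 → R) : Matrix (Fin 3) (Fin 3) R :=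
  !![0, u 1 * u 4 - u 2 * u 3, u 2 ^ 2 + u 3 * u 4 - u 4 * u 0 - u 5 * u 2;
     0, u 2, u 4;
     1, u 3, u 5]

/-- The part of trace zero. -/
noncomputable def tl [Algebra ℂ R] (x : Matrix (Fin 3) (Fin 3) R) : Matrix (Fin 3) (Fin 3) R :=
  x - Matrix.scalar (Fin 3) (algebraMap ℂ R (1 / 3) * x.trace)

/-- The anti-transposed matrix. -/
def anti (x : Matrix (Fin 3) (Fin 3) R) : Matrix (Fin 3) (Fin 3) R :=
  Matrix.of fun i j => x (Fin.rev j) (Fin.rev i)

/-- The determinant of the columns `v`, `x v`, `y v`. -/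
def detV (x y : Matrix (Fin 3) (Fin 3) R) (v : Fin 3 → R) : R :=
  Matrix.det (Matrix.of ![v, x.mulVec v, y.mulVec v])

/-- The determinant of the rows `f`, `f x`, `f y`. -/
def detF (x y : Matrix (Fin 3) (Fin 3) R) (f : Fin 3 → R) : R :=
  Matrix.det (Matrix.of ![f, Matrix.vecMul f x, Matrix.vecMul f y])

end

/-- The cone of the planes spanned by commuting matrices of trace zero. -/
def C0 : Set (I4 → ℂ) :=
  {z | ∃ x y : M3, x.trace = 0 ∧ y.trace = 0 ∧ x * y = y * x ∧ z = wedge x y}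

/-- The parametrization of the cell of the planes with the cyclic vector `e_0`. -/
noncomputable def φ0 : I4 → MvPolynomial (Fin 6) ℂ :=
  wedge (tl (mA fun i => X i)) (tl (mB fun i => X i))

/-- The coordinate with index `p`. -/
def co (p : I4) : (I4 → ℂ) →ₗ[ℂ] ℂ := LinearMap.proj p

/-- The linear forms: `1` and the structure constants in the normalised coordinates. -/
def L0 : Fin 7 → ((I4 → ℂ) →ₗ[ℂ] ℂ) :=
  ![co ((1, 0), (2, 0)), co ((1, 1), (2, 0)) - co ((0, 0), (2, 0)), co ((2, 1), (2, 0)),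
    co ((1, 2), (2, 0)), co ((1, 0), (2, 1)), co ((1, 0), (1, 2)),
    co ((1, 0), (2, 2)) - co ((1, 0), (0, 0))]

/-- The involution of the index set which belongs to the anti-transposition. -/
def σ0 : I4 ≃ I4 where
  toFun p := ((Fin.rev p.1.2, Fin.rev p.1.1), (Fin.rev p.2.2, Fin.rev p.2.1))
  invFun p := ((Fin.rev p.1.2, Fin.rev p.1.1), (Fin.rev p.2.2, Fin.rev p.2.1))
  left_inv p := by simp
  right_inv p := by simp

/-- The anti-transposition. -/
def γ0 : (I4 → ℂ) ≃ₗ[ℂ] (I4 → ℂ) := LinearEquiv.funCongrLeft ℂ ℂ σ0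

/-- The linear map `x ∧ y ↦ (h x h') ∧ (h y h')`. -/
def ad (h h' : M3) : (I4 → ℂ) →ₗ[ℂ] (I4 → ℂ) :=
  LinearMap.pi fun p => ∑ a : Fin 3, ∑ b : Fin 3, ∑ c : Fin 3, ∑ d : Fin 3,
    (h p.1.1 a * h' b p.1.2 * (h p.2.1 c * h' d p.2.2)) • co ((a, b), (c, d))

/-- The automorphisms: conjugations, and conjugations followed by the anti-transposition. -/
def W0 : Set ((I4 → ℂ) ≃ₗ[ℂ] (I4 → ℂ)) :=
  {w | ∃ h h' : M3, h * h' = 1 ∧ h' * h = 1 ∧
    ((∀ z, w z = ad h h' z) ∨ (∀ z, w z = γ0 (ad h h' z)))}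

/-- The data for the variety of abelian planes. -/
noncomputable def K0 : Cells I4 where
  C := C0
  φ := φ0
  L := L0
  W := W0
  γ := γ0
  κ := -1

/-- The matrix `diag(-2, 1, 1)`. -/
def hh : M3 := !![-2, 0, 0; 0, 1, 0; 0, 0, 1]

/-- The matrices of trace zero in the lower right block. -/
def bl (a : Fin 3 → ℂ) : M3 := !![0, 0, 0; 0, a 0, a 1; 0, a 2, -a 0]

end Pool.Agent.T2h19.AP
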